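import Mathlib
import Pool.Agent.Q291.MK.Stm3
import Pool.Agent.Q291.MK.Base

/-!
# Project MK (helper291): job CLP, constants of the class of laws
-/

namespace Pool.Agent.Q275.MK

open Pool.Agent.Q291.MK

theorem Pres.mono {C3 C8 C12 M D M' D' : ℝ} (h : Pres C3 C8 C12 M D) (hM : M ≤ M') (hM0 : 0 < M)
    (hD : D ≤ D') : Pres C3 C8 C12 M' D' := by
  intro a ha hm
  obtain ⟨h1, h2, h3, h4⟩ := h a ha (hM.trans hm)
  refine ⟨h1, h2, h3.trans ?_, h4.trans hD⟩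
  have : 0 < mean a := by linarith
  gcongr

theorem clp (htw : P_TWT) (hsw : P_TWS) : P_CLP := by
  obtain ⟨B1, hB1, hT8⟩ := bT8
  obtain ⟨B2, hB2, hS8⟩ := bS8
  obtain ⟨B4, hB4, hTW⟩ := htw
  obtain ⟨B5, hB5, hP, hSW⟩ := hsw
  have key : ∀ C8 : ℝ, B1 ≤ C8 → B2 ≤ C8 → ∃ B3 : ℝ, 1 ≤ B3 ∧ ∀ C3 : ℝ, B3 ≤ C3 →
      ∀ C12 : ℝ, B4 ≤ C12 → B5 ≤ C12 → ∃ M D : ℝ, 10 ≤ M ∧ 0 < D ∧ Pres C3 C8 C12 M D := by
    intro C8 h1 h2
    have h8 : 1 ≤ C8 := hB1.trans h1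
    obtain ⟨B3, hB3, hT3⟩ := bT3 C8 h8
    refine ⟨B3, hB3, ?_⟩
    intro C3 h3 C12 h4 h5
    have h31 : 1 ≤ C3 := hB3.trans h3
    obtain ⟨M3, hM3, hT3⟩ := hT3 C3 h3
    obtain ⟨M8, hM8, hT8⟩ := hT8 C8 h1 C3 h31
    obtain ⟨D, MT, hD, hMT, hTM⟩ := bTM C3 C8 h31 h8
    obtain ⟨MW, hMW, hTW⟩ := hTW C12 h4 C3 C8 h31 h8
    refine ⟨M3 + M8 + MT + MW + 8 * D, D, by linarith, hD, ?_⟩
    intro a ha hm
    have hm3 : M3 ≤ mean a := by linarith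
    have hm8 : M8 ≤ mean a := by linarith
    have hmT : MT ≤ mean a := by linarith
    have hmW : MW ≤ mean a := by linarith
    have hm1 : 1 ≤ mean a := by linarith
    obtain ⟨k1, k2, -⟩ := Pool.Agent.Q150.MK.step_T (M := M3 + M8 + MT + MW + 8 * D) hD
      (by linarith) bTLAW
      (fun a ha hm => hTM a ha (by linarith))
      (fun a ha hm => hT3 a ha (by linarith))
      (fun a ha hm => hT8 a ha (by linarith)) ha.toCls hm
    obtain ⟨t1, t2⟩ := hTM a ha.toCls hmT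
    exact ⟨⟨k1, hTW a ha hmW⟩,
      ⟨Pool.Agent.Q150.MK.step_S bSLAW bSM (hS8 C8 h2 C3) ha.toCls hm1, hSW C12 h5 C3 C8 a ha hm1⟩,
      t1, t2⟩
  obtain ⟨C8, hC8⟩ : ∃ C8 : ℝ, C8 = B1 + B2 + 110000 := ⟨_, rfl⟩
  obtain ⟨B3, hB3, H3⟩ := key C8 (by linarith) (by linarith)
  obtain ⟨B3', hB3', H3'⟩ := key (C8 + 1) (by linarith) (by linarith)
  obtain ⟨M1, D1, hM1, hD1, P1⟩ := H3 (B3 + B3') (by linarith) (B4 + B5) (by linarith)
    (by linarith)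
  obtain ⟨M2, D2, hM2, hD2, P2⟩ := H3' (B3 + B3' + 3) (by linarith) (B4 + B5 + 1) (by linarith)
    (by linarith)
  refine ⟨B3 + B3', C8, B4 + B5, M1 + M2, D1 + D2, by linarith, by linarith, by linarith,
    by linarith, by linarith, Pres.mono P1 (by linarith) (by linarith) (by linarith),
    Pres.mono P2 (by linarith) (by linarith) (by linarith), ?_⟩
  intro m hm
  have hm1 : 1 ≤ m := by linarith
  obtain ⟨p1, p2, p3, p4, p5, -⟩ := bPOIS m (by linarith)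
  refine ⟨⟨p1, ?_, ?_, ?_⟩, ?_⟩
  · rw [p2, p3]
  · rw [p2, p4, abs_of_pos (by linarith)]
    nlinarith
  · rw [p2]
    refine (p5 hm1).trans ?_
    gcongr
    linarith
  · rw [p2]
    refine (hP m hm1).trans ?_
    gcongr
    linarith

end Pool.Agent.Q275.MK
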