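import Mathlib
import Pool.Agent.Q291.MK.Stm3
import Pool.Agent.Q291.MK.Law

/-!
# Project MK (helper291): job MIX, convex combinations
-/

namespace Pool.Agent.Q275.MK

open Pool.Agent.Q291.MK

theorem PBsub (c : ℝ) : PB (fun k => (k:ℝ) - c) := PB.id.sub (PB.const c)

theorem PBpow (c : ℝ) (n : ℕ) : PB (fun k => ((k:ℝ) - c) ^ n) := (PBsub c).pow n

section one

variable {a : ℕ → ℝ}

theorem E_cent (ha : AM a) : E a (fun k => (k:ℝ) - mean a) = 0 := by
  rw [ha.E_sub PB.id (PB.const _), ha.toLaw.E_const]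
  exact sub_self _

theorem shift2 (ha : AM a) (m : ℝ) :
    E a (fun k => ((k:ℝ) - m) ^ 2) = vr a + (mean a - m) ^ 2 := by
  obtain ⟨δ, hδ⟩ : ∃ δ, δ = mean a - m := ⟨_, rfl⟩
  have h1 : (fun k : ℕ => ((k:ℝ) - m) ^ 2) = fun k : ℕ =>
      (((k:ℝ) - mean a) ^ 2 + 2 * δ * ((k:ℝ) - mean a)) + δ ^ 2 := by
    funext k
    rw [hδ]
    ring
  rw [h1, ha.E_add ((PBpow _ 2).add ((PB.const _).mul (PBsub _))) (PB.const _),
    ha.E_add (PBpow _ 2) ((PB.const _).mul (PBsub _)), E_const_mul, E_cent ha,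
    ha.toLaw.E_const, mul_zero, add_zero, ← hδ]
  rfl

theorem shift3 (ha : AM a) (m : ℝ) :
    E a (fun k => ((k:ℝ) - m) ^ 3) = k3 a + 3 * (mean a - m) * vr a + (mean a - m) ^ 3 := by
  obtain ⟨δ, hδ⟩ : ∃ δ, δ = mean a - m := ⟨_, rfl⟩
  have h1 : (fun k : ℕ => ((k:ℝ) - m) ^ 3) = fun k : ℕ =>
      ((((k:ℝ) - mean a) ^ 3 + 3 * δ * ((k:ℝ) - mean a) ^ 2) + 3 * δ ^ 2 * ((k:ℝ) - mean a)) +
        δ ^ 3 := by
    funext k
    rw [hδ]
    ring
  have p1 : PB (fun k => 3 * δ * ((k:ℝ) - mean a) ^ 2) := (PB.const _).mul (PBpow _ 2)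
  have p2 : PB (fun k => 3 * δ ^ 2 * ((k:ℝ) - mean a)) := (PB.const _).mul (PBsub _)
  rw [h1, ha.E_add (((PBpow _ 3).add p1).add p2) (PB.const _), ha.E_add ((PBpow _ 3).add p1) p2,
    ha.E_add (PBpow _ 3) p1, E_const_mul, E_const_mul, E_cent ha,
    ha.toLaw.E_const, mul_zero, add_zero, ← hδ]
  rfl

theorem pow_add_le {t : ℝ} (ht : 0 < t) (x y : ℝ) {p : ℕ} (hp : Even (p + 1)) :
    (x + y) ^ (p + 1) ≤ (1 + t) ^ p * x ^ (p + 1) + ((1 + t) / t) ^ p * y ^ (p + 1) := by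
  have h1 := hp.convexOn_pow (𝕜 := ℝ)
  have w1 : 0 ≤ 1 / (1 + t) := by positivity
  have w2 : 0 ≤ t / (1 + t) := by positivity
  have w3 : 1 / (1 + t) + t / (1 + t) = 1 := by field_simp
  have h2 := h1.2 (Set.mem_univ ((1 + t) * x)) (Set.mem_univ ((1 + t) / t * y)) w1 w2 w3
  simp only [smul_eq_mul] at h2
  have e1 : 1 / (1 + t) * ((1 + t) * x) + t / (1 + t) * ((1 + t) / t * y) = x + y := by
    field_simp
  have e2 : 1 / (1 + t) * ((1 + t) * x) ^ (p + 1) = (1 + t) ^ p * x ^ (p + 1) := by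
    rw [mul_pow, pow_succ (1 + t) p]
    field_simp
  have e3 : t / (1 + t) * ((1 + t) / t * y) ^ (p + 1) = ((1 + t) / t) ^ p * y ^ (p + 1) := by
    rw [mul_pow, pow_succ ((1 + t) / t) p]
    field_simp
  rw [e1, e2, e3] at h2
  exact h2

theorem shiftp (ha : AM a) (m : ℝ) {t : ℝ} (ht : 0 < t) {p : ℕ} (hp : Even (p + 1))
    (hm : |mean a - m| ≤ 3) :
    E a (fun k => ((k:ℝ) - m) ^ (p + 1)) ≤
      (1 + t) ^ p * E a (fun k => ((k:ℝ) - mean a) ^ (p + 1)) + ((1 + t) / t) ^ p * 3 ^ (p + 1) := by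
  have h1 : E a (fun k => ((k:ℝ) - m) ^ (p + 1)) ≤
      E a (fun k => (1 + t) ^ p * ((k:ℝ) - mean a) ^ (p + 1) +
        ((1 + t) / t) ^ p * 3 ^ (p + 1)) := by
    apply ha.E_mono (PBpow _ _) (((PB.const _).mul (PBpow _ _)).add (PB.const _))
    intro k
    have h2 := pow_add_le ht ((k:ℝ) - mean a) (mean a - m) hp
    rw [sub_add_sub_cancel] at h2
    refine h2.trans ?_
    have h3 : (mean a - m) ^ (p + 1) ≤ 3 ^ (p + 1) := by
      rw [← hp.pow_abs]
      exact pow_le_pow_left₀ (abs_nonneg _) hm _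
    have h4 : 0 ≤ ((1 + t) / t) ^ p := by positivity
    have := mul_le_mul_of_nonneg_left h3 h4
    linarith
  rw [ha.E_add ((PB.const _).mul (PBpow _ _)) (PB.const _), E_const_mul, ha.toLaw.E_const] at h1
  exact h1

theorem vr_nonneg (ha : AM a) : 0 ≤ vr a := by
  unfold vr E
  exact tsum_nonneg fun k => mul_nonneg (ha.nn k) (by positivity)

theorem mean_nonneg (ha : AM a) : 0 ≤ mean a := by
  unfold mean E
  exact tsum_nonneg fun k => mul_nonneg (ha.nn k) (by positivity)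

end one

/-- the bound of the shifted moments -/
theorem exists_mom (C : ℝ) (hC : 1 ≤ C) (p q : ℕ) (hq : 1 ≤ q) :
    ∃ (t M : ℝ), 0 < t ∧ 10 ≤ M ∧ ∀ m x : ℝ, M ≤ m → 0 ≤ x → x ≤ m + 3 →
      (1 + t) ^ p * (C * x ^ q) + ((1 + t) / t) ^ p * 3 ^ (p + 1) ≤ (C + 1) * m ^ q := by
  have hB : ∀ (n : ℕ) (t : ℝ), 0 ≤ t → t ≤ 1 → (1 + t) ^ n ≤ 1 + (2 ^ n - 1) * t := by
    intro n t h0 h1
    induction n with
    | zero => norm_num
    | succ n ih =>
      rw [pow_succ, pow_succ]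
      have h2 : (1:ℝ) ≤ 2 ^ n := one_le_pow₀ (by norm_num)
      calc (1 + t) ^ n * (1 + t) ≤ (1 + (2 ^ n - 1) * t) * (1 + t) := by gcongr
      _ ≤ 1 + (2 ^ n * 2 - 1) * t := by
        nlinarith [mul_nonneg (mul_nonneg (sub_nonneg.2 h2) h0) (sub_nonneg.2 h1)]
  obtain ⟨t, ht⟩ : ∃ t : ℝ, t = 1 / (2 * 2 ^ (p + q) * C) := ⟨_, rfl⟩
  have ht0 : 0 < t := by rw [ht]; positivity
  have h2p : (1:ℝ) ≤ 2 ^ (p + q) := one_le_pow₀ (by norm_num)
  have ht1 : t ≤ 1 := by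
    rw [ht, div_le_one (by positivity)]
    nlinarith
  obtain ⟨K, hK⟩ : ∃ K : ℝ, K = ((1 + t) / t) ^ p * 3 ^ (p + 1) := ⟨_, rfl⟩
  have hK0 : 0 < K := by rw [hK]; positivity
  refine ⟨t, 10 + 3 / t + 2 * K, ht0, ?_, ?_⟩
  · have : 0 < 3 / t := by positivity
    linarith
  intro m x hm hx hxm
  rw [← hK]
  have h3t : 0 < 3 / t := by positivity
  have hm1 : 1 ≤ m := by linarith
  have hm3 : 3 ≤ t * m := by
    have h1 : 3 / t ≤ m := by linarith
    rw [div_le_iff₀ ht0] at h1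
    linarith
  have h1 : x ^ q ≤ (1 + t) ^ q * m ^ q := by
    rw [← mul_pow]
    apply pow_le_pow_left₀ hx
    nlinarith
  have h2 : (1 + t) ^ (p + q) * C ≤ C + 1 / 2 := by
    have h3 := hB (p + q) t ht0.le ht1
    have h4 : 2 ^ (p + q) * t * C = 1 / 2 := by
      rw [ht]
      field_simp
    calc (1 + t) ^ (p + q) * C ≤ (1 + (2 ^ (p + q) - 1) * t) * C := by gcongr
    _ = C + 2 ^ (p + q) * t * C - t * C := by ring
    _ ≤ C + 1 / 2 := by
      rw [h4]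
      have : 0 ≤ t * C := by positivity
      linarith
  have h3 : (1 + t) ^ p * (C * x ^ q) ≤ (C + 1 / 2) * m ^ q := by
    calc (1 + t) ^ p * (C * x ^ q) ≤ (1 + t) ^ p * (C * ((1 + t) ^ q * m ^ q)) := by gcongr
    _ = (1 + t) ^ (p + q) * C * m ^ q := by rw [pow_add]; ring
    _ ≤ _ := by gcongr
  have h4 : K ≤ 1 / 2 * m ^ q := by
    have h5 : m ≤ m ^ q := le_self_pow₀ hm1 (by omega)
    linarith
  linarith

theorem mix : P_MIX := by
  intro C3 C8 C12 h3 h8 h12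
  obtain ⟨t8, M8, ht8, hM8, H8⟩ := exists_mom C8 h8 7 4 (by norm_num)
  obtain ⟨t12, M12, ht12, hM12, H12⟩ := exists_mom C12 h12 11 6 (by norm_num)
  refine ⟨M8 + M12 + 50, by linarith, ?_⟩
  intro a b ha hb hM hab hva hvb s hs0 hs1
  have hs1' : 0 ≤ 1 - s := by linarith
  have hmix : ∀ φ : ℕ → ℝ, PB φ → E (fun k => (1 - s) * a k + s * b k) φ =
      (1 - s) * E a φ + s * E b φ := by
    intro φ hφ
    unfold E
    rw [← tsum_mul_left, ← tsum_mul_left, ← ((ha.summ hφ).mul_left _).tsum_add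
      ((hb.summ hφ).mul_left _)]
    exact tsum_congr fun k => by ring
  obtain ⟨f, hf⟩ : ∃ f : ℕ → ℝ, f = fun k => (1 - s) * a k + s * b k := ⟨_, rfl⟩
  rw [← hf] at hmix ⊢
  have hAM : AM f := by
    refine ⟨⟨?_, ?_⟩, ?_⟩
    · intro k
      rw [hf]
      exact add_nonneg (mul_nonneg hs1' (ha.nn k)) (mul_nonneg hs0 (hb.nn k))
    · have h1 := (ha.one.mul_left (1 - s)).add (hb.one.mul_left s)
      rw [hf]
      have h2 : (1 - s) * 1 + s * 1 = 1 := by ring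
      rwa [h2] at h1
    · intro q
      have h1 := ((ha.mom q).mul_left (1 - s)).add ((hb.mom q).mul_left s)
      rw [hf]
      refine h1.congr fun k => ?_
      ring
  have hmean : mean f = (1 - s) * mean a + s * mean b := hmix _ PB.id
  obtain ⟨c, hc⟩ : ∃ c, c = mean b - mean a := ⟨_, rfl⟩
  rw [← hc] at hab
  have hda : mean a - mean f = -(s * c) := by rw [hmean, hc]; ring
  have hdb : mean b - mean f = (1 - s) * c := by rw [hmean, hc]; ring
  have habs := abs_le.1 hab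
  have hda3 : |mean a - mean f| ≤ 3 := by
    rw [hda, abs_neg, abs_mul, abs_of_nonneg hs0]
    nlinarith [abs_nonneg c]
  have hdb3 : |mean b - mean f| ≤ 3 := by
    rw [hdb, abs_mul, abs_of_nonneg hs1']
    nlinarith [abs_nonneg c]
  have hma : mean a ≤ mean f + 3 := by linarith [(abs_le.1 hda3).2]
  have hmb : mean b ≤ mean f + 3 := by linarith [(abs_le.1 hdb3).2]
  have hmf : M8 + M12 + 47 ≤ mean f := by linarith [(abs_le.1 hda3).2]
  have hva0 := vr_nonneg ha.toAM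
  have hvb0 := vr_nonneg hb.toAM
  have ha0 := mean_nonneg ha.toAM
  have hb0 := mean_nonneg hb.toAM
  have hvr : vr f ≤ mean f := by
    unfold vr
    rw [hmix _ (PBpow _ 2), shift2 ha.toAM, shift2 hb.toAM]
    have e1 : (mean a - mean f) ^ 2 ≤ 9 := by nlinarith [abs_le.1 hda3]
    have e2 : (mean b - mean f) ^ 2 ≤ 9 := by nlinarith [abs_le.1 hdb3]
    have e3 : (1 - s) * (vr a + (mean a - mean f) ^ 2) ≤ (1 - s) * (3 / 4 * mean a + 9) := by
      gcongr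
    have e4 : s * (vr b + (mean b - mean f) ^ 2) ≤ s * (3 / 4 * mean b + 9) := by gcongr
    have e5 : (1 - s) * (3 / 4 * mean a + 9) + s * (3 / 4 * mean b + 9) =
        3 / 4 * mean f + 9 := by rw [hmean]; ring
    linarith
  have hk3 : |k3 f| ≤ (C3 + 3) * mean f := by
    have e1 : k3 f = (1 - s) * k3 a + s * k3 b + 3 * (s * (1 - s)) * c * (vr b - vr a) +
        s * (1 - s) * (1 - 2 * s) * c ^ 3 := by
      unfold k3
      rw [hmix _ (PBpow _ 3), shift3 ha.toAM, shift3 hb.toAM, hda, hdb]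
      unfold k3
      ring
    have f1 : |(1 - s) * k3 a| ≤ (1 - s) * (C3 * mean a) := by
      rw [abs_mul, abs_of_nonneg hs1']
      exact mul_le_mul_of_nonneg_left ha.k3_le hs1'
    have f2 : |s * k3 b| ≤ s * (C3 * mean b) := by
      rw [abs_mul, abs_of_nonneg hs0]
      exact mul_le_mul_of_nonneg_left hb.k3_le hs0
    have hss : s * (1 - s) ≤ 1 / 4 := by nlinarith [sq_nonneg (s - 1 / 2)]
    have hss0 : 0 ≤ s * (1 - s) := mul_nonneg hs0 hs1'
    have f3 : |3 * (s * (1 - s)) * c * (vr b - vr a)| ≤ 9 / 4 * (3 / 4 * (mean f + 3)) := by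
      have g1 : |vr b - vr a| ≤ 3 / 4 * (mean f + 3) := by
        rw [abs_le]
        constructor <;> linarith
      rw [abs_mul, abs_mul, abs_mul, abs_of_nonneg hss0, abs_of_pos (by norm_num : (0:ℝ) < 3)]
      have g2 : 3 * (s * (1 - s)) * |c| ≤ 9 / 4 := by
        calc 3 * (s * (1 - s)) * |c| ≤ 3 * (1 / 4) * 3 := by gcongr
        _ = 9 / 4 := by norm_num
      exact mul_le_mul g2 g1 (abs_nonneg _) (by norm_num)
    have f4 : |s * (1 - s) * (1 - 2 * s) * c ^ 3| ≤ 27 := by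
      rw [abs_mul, abs_mul, abs_of_nonneg hss0, abs_pow]
      have g1 : |1 - 2 * s| ≤ 1 := by
        rw [abs_le]
        constructor <;> linarith
      have g2 : |c| ^ 3 ≤ 3 ^ 3 := pow_le_pow_left₀ (abs_nonneg _) hab 3
      calc s * (1 - s) * |1 - 2 * s| * |c| ^ 3 ≤ 1 / 4 * 1 * 3 ^ 3 := by gcongr
      _ ≤ 27 := by norm_num
    have f5 : |k3 f| ≤ |(1 - s) * k3 a| + |s * k3 b| +
        |3 * (s * (1 - s)) * c * (vr b - vr a)| + |s * (1 - s) * (1 - 2 * s) * c ^ 3| := by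
      rw [e1]
      refine (abs_add_le _ _).trans (add_le_add_left ?_ _)
      refine (abs_add_le _ _).trans (add_le_add_left ?_ _)
      exact abs_add_le _ _
    have f6 : (1 - s) * (C3 * mean a) + s * (C3 * mean b) = C3 * mean f := by rw [hmean]; ring
    linarith
  have hm8 : m8 f ≤ (C8 + 1) * mean f ^ 4 := by
    unfold m8
    rw [hmix _ (PBpow _ 8)]
    have e1 := shiftp ha.toAM (mean f) ht8 (p := 7) (by decide) hda3
    have e2 := shiftp hb.toAM (mean f) ht8 (p := 7) (by decide) hdb3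
    have e3 := H8 (mean f) (mean a) (by linarith) ha0 hma
    have e4 := H8 (mean f) (mean b) (by linarith) hb0 hmb
    have e5 : (1 + t8) ^ 7 * E a (fun k => ((k:ℝ) - mean a) ^ (7 + 1)) ≤
        (1 + t8) ^ 7 * (C8 * mean a ^ 4) := by
      gcongr
      exact ha.m8_le
    have e6 : (1 + t8) ^ 7 * E b (fun k => ((k:ℝ) - mean b) ^ (7 + 1)) ≤
        (1 + t8) ^ 7 * (C8 * mean b ^ 4) := by
      gcongr
      exact hb.m8_le
    have e7 : E a (fun k => ((k:ℝ) - mean f) ^ 8) ≤ (C8 + 1) * mean f ^ 4 := by linarith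
    have e8 : E b (fun k => ((k:ℝ) - mean f) ^ 8) ≤ (C8 + 1) * mean f ^ 4 := by linarith
    calc (1 - s) * E a (fun k => ((k:ℝ) - mean f) ^ 8) + s * E b (fun k => ((k:ℝ) - mean f) ^ 8)
        ≤ (1 - s) * ((C8 + 1) * mean f ^ 4) + s * ((C8 + 1) * mean f ^ 4) := by gcongr
    _ = _ := by ring
  have hm12 : m12 f ≤ (C12 + 1) * mean f ^ 6 := by
    unfold m12
    rw [hmix _ (PBpow _ 12)]
    have e1 := shiftp ha.toAM (mean f) ht12 (p := 11) (by decide) hda3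
    have e2 := shiftp hb.toAM (mean f) ht12 (p := 11) (by decide) hdb3
    have e3 := H12 (mean f) (mean a) (by linarith) ha0 hma
    have e4 := H12 (mean f) (mean b) (by linarith) hb0 hmb
    have e5 : (1 + t12) ^ 11 * E a (fun k => ((k:ℝ) - mean a) ^ (11 + 1)) ≤
        (1 + t12) ^ 11 * (C12 * mean a ^ 6) := by
      gcongr
      exact ha.m12_le
    have e6 : (1 + t12) ^ 11 * E b (fun k => ((k:ℝ) - mean b) ^ (11 + 1)) ≤
        (1 + t12) ^ 11 * (C12 * mean b ^ 6) := by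
      gcongr
      exact hb.m12_le
    have e7 : E a (fun k => ((k:ℝ) - mean f) ^ 12) ≤ (C12 + 1) * mean f ^ 6 := by linarith
    have e8 : E b (fun k => ((k:ℝ) - mean f) ^ 12) ≤ (C12 + 1) * mean f ^ 6 := by linarith
    calc (1 - s) * E a (fun k => ((k:ℝ) - mean f) ^ 12) + s * E b (fun k => ((k:ℝ) - mean f) ^ 12)
        ≤ (1 - s) * ((C12 + 1) * mean f ^ 6) + s * ((C12 + 1) * mean f ^ 6) := by gcongr
    _ = _ := by ring
  exact ⟨⟨hAM, hvr, hk3, hm8⟩, hm12⟩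

end Pool.Agent.Q275.MK
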