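import Mathlib
import Pool.Agent.Q291.MK.Stm3

/-!
# Project MK (helper291): job SQ2, the linear recursion of the response
-/

namespace Pool.Agent.Q275.MK

open Finset Pool.Agent.Q291.MK

theorem sum8 (m : ℕ) : ∑ n ∈ range m, (1 + (n:ℝ)) / 8 ^ n ≤ 2 - 2 * (m + 1) / 8 ^ m := by
  induction m with
  | zero => norm_num
  | succ m ih =>
    rw [sum_range_succ]
    have h1 : (0:ℝ) < 8 ^ m := by positivity
    have h2 : (1 + (m:ℝ)) / 8 ^ m ≤ 2 * (m + 1) / 8 ^ m - 2 * ((m + 1 : ℕ) + 1) / 8 ^ (m + 1) := by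
      rw [pow_succ, ← div_div, div_eq_mul_inv (2 * (m + 1) : ℝ), div_eq_mul_inv (1 + (m:ℝ)),
        div_eq_mul_inv (2 * ((m + 1 : ℕ) + 1) : ℝ)]
      have h3 : (0:ℝ) < (8 ^ m)⁻¹ := inv_pos.2 h1
      have hm : (0:ℝ) ≤ m := Nat.cast_nonneg m
      push_cast
      have h4 : (0:ℝ) ≤ m * (8 ^ m)⁻¹ := by positivity
      nlinarith
    linarith

theorem sum2 (m : ℕ) : ∑ n ∈ range m, (1 + (n:ℝ)) / 2 ^ n = 4 - 2 * (m + 2) / 2 ^ m := by
  induction m with
  | zero => norm_num
  | succ m ih =>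
    rw [sum_range_succ, ih, pow_succ]
    have h1 : (0:ℝ) < 2 ^ m := by positivity
    push_cast
    field_simp
    ring

theorem sq2 : P_SQ2 := by
  intro D hD
  obtain ⟨r, hr⟩ : ∃ r : ℝ, r = 1224 * D ^ 2 := ⟨_, rfl⟩
  have hD2 : 1 ≤ D ^ 2 := one_le_pow₀ hD
  have hDD : D ≤ D ^ 2 := by nlinarith
  have hr1 : 1224 ≤ r := by rw [hr]; linarith
  refine ⟨r ^ 2, 4 * D * (17 + 204 * D ^ 2), by nlinarith, by positivity, ?_⟩
  intro N μ s c v ρ h1 h2 h3 h4 h5 h6 h7 h8 h9
  rcases Nat.eq_zero_or_pos N with hN0 | hNpos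
  · subst hN0
    intro n hn
    have hn0 : n = 0 := by omega
    subst hn0
    have hρ := (h4 0 le_rfl).1
    have e1 : 0 ≤ (|c 0| + ρ 0) / μ 0 := by
      have := abs_nonneg (c 0)
      positivity
    have e2 := abs_nonneg (c 0)
    have e3 : 0 ≤ 4 * D * (17 + 204 * D ^ 2) * ((|c 0| + ρ 0) / μ 0) := by positivity
    refine ⟨by linarith, ?_, ?_⟩
    · rw [pow_zero, div_one]
      have e4 : 0 ≤ 4 * D * (17 + 204 * D ^ 2) * (|c 0| + (|c 0| + ρ 0) / μ 0) := by positivity
      linarith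
    · intro _ _
      rw [sub_self, abs_zero]
      positivity
  -- basic facts on `q n = √(μ n)`
  have hq : ∀ n < N, r ≤ √(μ n) := by
    intro n hn
    exact Real.le_sqrt_of_sq_le (h1 n hn)
  have hμ : ∀ n < N, μ n = √(μ n) ^ 2 := by
    intro n hn
    rw [Real.sq_sqrt]
    have := h1 n hn
    nlinarith
  have hμpos : ∀ n < N, 0 < μ n := by
    intro n hn
    have := h1 n hn
    nlinarith
  -- the maximum of `|c|`
  obtain ⟨js, hjs, hmax⟩ := exists_max_image (range (N + 1)) (fun j => |c j|) ⟨0, by simp⟩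
  obtain ⟨cb, hcb⟩ : ∃ cb, cb = |c js| := ⟨_, rfl⟩
  have hcb0 : 0 ≤ cb := by rw [hcb]; exact abs_nonneg _
  have hcle : ∀ n ≤ N, |c n| ≤ cb := by
    intro n hn
    rw [hcb]
    exact hmax n (by rw [mem_range]; omega)
  have hρ0 : 0 ≤ ρ 0 := (h4 0 (by omega)).1
  -- the bound of `ρ`
  have hρ : ∀ n ≤ N, ρ n ≤ ρ 0 / 2 ^ n + 2 * D * cb := by
    intro n
    induction n with
    | zero =>
      intro _
      rw [pow_zero, div_one]
      have : 0 ≤ 2 * D * cb := by positivity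
      linarith
    | succ n ih =>
      intro hn
      have e1 := ih (by omega)
      have e2 := h8 n (by omega)
      have e3 : D * |c n| ≤ D * cb := mul_le_mul_of_nonneg_left (hcle n (by omega)) (by linarith)
      have e4 : ρ 0 / 2 ^ (n + 1) = ρ 0 / 2 ^ n / 2 := by rw [pow_succ, div_div]
      rw [e4]
      linarith
  -- one step of `d`
  obtain ⟨d, hd⟩ : ∃ d : ℕ → ℝ, ∀ n, d n = v n - s n * c n := ⟨_, fun _ => rfl⟩
  have hdstep : ∀ n < N, |d (n + 1)| ≤ |d n| / 8 + 3 * D * ((|c n| + ρ n) / √(μ n)) := by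
    intro n hn
    have hqn := hq n hn
    have hμn := hμ n hn
    have hμp := hμpos n hn
    obtain ⟨q, hqq⟩ : ∃ q, q = √(μ n) := ⟨_, rfl⟩
    have e5 := h5 n hn
    have e6 := h6 n hn
    have e7 := h7 n hn
    rw [← hqq] at hqn hμn e6 e7 ⊢
    have hq0 : 0 < q := by linarith
    have hρn := (h4 n hn.le).1
    have hsn := h4 (n + 1) (by omega)
    have hid : d (n + 1) = (v (n + 1) - (v n / 16 + 5 / 16 * c n)) -
        s (n + 1) * (c (n + 1) - c n + 15 / 8 * ((v n - s n * c n) / μ n)) -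
        (s (n + 1) - (5 / 16 + s n / 16)) * c n + d n / 16 +
        s (n + 1) * (15 / 8 * (d n / μ n)) := by
      rw [hd, hd]
      ring
    have habs : |d (n + 1)| ≤ |v (n + 1) - (v n / 16 + 5 / 16 * c n)| +
        |s (n + 1) * (c (n + 1) - c n + 15 / 8 * ((v n - s n * c n) / μ n))| +
        |(s (n + 1) - (5 / 16 + s n / 16)) * c n| + |d n / 16| +
        |s (n + 1) * (15 / 8 * (d n / μ n))| := by
      rw [hid]
      refine (abs_add_le _ _).trans (add_le_add_left ?_ _)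
      refine (abs_add_le _ _).trans (add_le_add_left ?_ _)
      refine (abs_sub _ _).trans (add_le_add_left ?_ _)
      exact abs_sub _ _
    have f2 : |s (n + 1) * (c (n + 1) - c n + 15 / 8 * ((v n - s n * c n) / μ n))| ≤
        D * (|c n| + ρ n) / (μ n * q) := by
      rw [abs_mul, abs_of_nonneg hsn.2.1]
      calc s (n + 1) * |c (n + 1) - c n + 15 / 8 * ((v n - s n * c n) / μ n)|
          ≤ 1 * |c (n + 1) - c n + 15 / 8 * ((v n - s n * c n) / μ n)| := by
            gcongr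
            exact hsn.2.2
      _ ≤ _ := by rw [one_mul]; exact e6
    have f3 : |(s (n + 1) - (5 / 16 + s n / 16)) * c n| ≤ D / μ n * |c n| := by
      rw [abs_mul]
      gcongr
    have f4 : |d n / 16| = |d n| / 16 := by
      rw [abs_div, abs_of_pos (by norm_num : (0:ℝ) < 16)]
    have f5 : |s (n + 1) * (15 / 8 * (d n / μ n))| ≤ |d n| / 16 := by
      rw [abs_mul, abs_of_nonneg hsn.2.1, abs_mul, abs_of_pos (by norm_num : (0:ℝ) < 15 / 8),
        abs_div, abs_of_pos hμp]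
      have g1 : |d n| / μ n ≤ |d n| / 30 := by
        gcongr
        nlinarith
      have g2 := abs_nonneg (d n)
      have g3 : 0 ≤ |d n| / μ n := by positivity
      calc s (n + 1) * (15 / 8 * (|d n| / μ n)) ≤ 1 * (15 / 8 * (|d n| / μ n)) := by
            gcongr
            exact hsn.2.2
      _ ≤ |d n| / 16 := by linarith
    have hc0 := abs_nonneg (c n)
    have f6 : D * (|c n| + ρ n) / (μ n * q) ≤ D * ((|c n| + ρ n) / q) := by
      rw [mul_div_assoc]
      have : 1 ≤ μ n := by nlinarith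
      gcongr
      nlinarith
    have f7 : D / μ n * |c n| ≤ D * ((|c n| + ρ n) / q) := by
      rw [div_mul_eq_mul_div, mul_div_assoc]
      have hqμ : q ≤ μ n := by nlinarith
      have : |c n| / μ n ≤ (|c n| + ρ n) / q := by
        gcongr
        linarith
      gcongr
    have f8 : D * (|c n| + ρ n) / q = D * ((|c n| + ρ n) / q) := mul_div_assoc _ _ _
    rw [f8] at e7
    linarith
  -- the bound of `d`
  have hmono : ∀ n, n + 1 < N → √(μ (n + 1)) ≤ √(μ n) := by
    intro n hn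
    apply Real.sqrt_le_sqrt
    have := (h2 n (by omega)).2
    linarith
  have hdb : ∀ n < N, |d n| ≤ |d 0| / 8 ^ n + 24 * D ^ 2 * ((cb + ρ 0 / 2 ^ n) / √(μ n)) := by
    intro n
    induction n with
    | zero =>
      intro hn
      rw [pow_zero, div_one, pow_zero, div_one]
      have : 0 ≤ 24 * D ^ 2 * ((cb + ρ 0) / √(μ 0)) := by positivity
      linarith
    | succ n ih =>
      intro hn
      have e1 := ih (by omega)
      have e2 := hdstep n (by omega)
      have e3 := hρ n (by omega)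
      have e4 := hcle n (by omega)
      have hqn := hq n (by omega)
      have hqn1 := hq (n + 1) hn
      have hm := hmono n hn
      obtain ⟨q, hqq⟩ : ∃ q, q = √(μ n) := ⟨_, rfl⟩
      obtain ⟨q', hqq'⟩ : ∃ q', q' = √(μ (n + 1)) := ⟨_, rfl⟩
      rw [← hqq] at e1 e2 hqn hm
      rw [← hqq'] at hqn1 hm ⊢
      have hq0 : 0 < q := by linarith
      have hq0' : 0 < q' := by linarith
      obtain ⟨x, hx⟩ : ∃ x, x = ρ 0 / 2 ^ n := ⟨_, rfl⟩
      have hx0 : 0 ≤ x := by rw [hx]; positivity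
      have e5 : ρ 0 / 2 ^ (n + 1) = x / 2 := by rw [pow_succ, ← div_div, hx]
      have e6 : |d 0| / 8 ^ (n + 1) = |d 0| / 8 ^ n / 8 := by rw [pow_succ, div_div]
      rw [e5, e6]
      rw [← hx] at e1 e3
      have g1 : (|c n| + ρ n) / q ≤ (3 * D * cb + x) / q := by
        apply div_le_div_of_nonneg_right _ hq0.le
        nlinarith
      have g2 : 24 * D ^ 2 * ((cb + x) / q) / 8 + 3 * D * ((3 * D * cb + x) / q) ≤
          24 * D ^ 2 * ((cb + x / 2) / q) := by
        have g3 : 24 * D ^ 2 * ((cb + x) / q) / 8 + 3 * D * ((3 * D * cb + x) / q) =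
            (3 * D ^ 2 * (cb + x) + 3 * D * (3 * D * cb + x)) / q := by ring
        have g4 : 24 * D ^ 2 * ((cb + x / 2) / q) = (24 * D ^ 2 * (cb + x / 2)) / q := by ring
        rw [g3, g4]
        gcongr
        have g5 : D * x ≤ D ^ 2 * x := mul_le_mul_of_nonneg_right hDD hx0
        have g6 : 0 ≤ D ^ 2 * cb := by positivity
        have g7 : 0 ≤ D ^ 2 * x := by positivity
        nlinarith
      have g3 : 24 * D ^ 2 * ((cb + x / 2) / q) ≤ 24 * D ^ 2 * ((cb + x / 2) / q') := by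
        gcongr
      have g4 : 3 * D * ((|c n| + ρ n) / q) ≤ 3 * D * ((3 * D * cb + x) / q) := by gcongr
      linarith
  -- comparison with `μ 0`
  have hμ0 : ∀ n < N, μ 0 ≤ μ n * (1 + n) := by
    intro n hn
    have e1 : ∀ m ≤ n, μ 0 ≤ μ m + 4 * m := by
      intro m
      induction m with
      | zero =>
        intro _
        simp
      | succ m ih =>
        intro hm
        have e2 := ih (by omega)
        have e3 := (h2 m (by omega)).1
        push_cast
        linarith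
    have e2 := e1 n le_rfl
    have e3 := h1 n hn
    have e4 : (0:ℝ) ≤ n := Nat.cast_nonneg n
    have e5 : 4 ≤ μ n := by nlinarith
    nlinarith
  have hμ00 := hμpos 0 hNpos
  have hinv : ∀ n < N, 1 / μ n ≤ (1 + n) / μ 0 := by
    intro n hn
    rw [div_le_div_iff₀ (hμpos n hn) hμ00, one_mul]
    linarith [hμ0 n hn]
  -- the increments of `c`
  have hinc : ∀ n < N, |c (n + 1) - c n| ≤ 2 * (|d 0| / μ 0) * ((1 + n) / 8 ^ n) +
      51 * D ^ 2 * cb * (1 / (μ n * √(μ n))) + 51 * D ^ 2 * (ρ 0 / μ 0) * ((1 + n) / 2 ^ n) := by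
    intro n hn
    have e1 := hdb n hn
    have e3 := hρ n hn.le
    have e4 := hcle n hn.le
    have e6 := h6 n hn
    have e9 := hinv n hn
    have hqn := hq n hn
    have hμp := hμpos n hn
    obtain ⟨q, hqq⟩ : ∃ q, q = √(μ n) := ⟨_, rfl⟩
    rw [← hqq] at e1 e6 hqn ⊢
    have hq0 : 0 < q := by linarith
    rw [← hd] at e6
    have f1 : |c (n + 1) - c n| ≤ D * (|c n| + ρ n) / (μ n * q) + 15 / 8 * (|d n| / μ n) := by
      have f2 : c (n + 1) - c n = (c (n + 1) - c n + 15 / 8 * (d n / μ n)) -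
          15 / 8 * (d n / μ n) := by ring
      have f3 : |15 / 8 * (d n / μ n)| = 15 / 8 * (|d n| / μ n) := by
        rw [abs_mul, abs_of_pos (by norm_num : (0:ℝ) < 15 / 8), abs_div, abs_of_pos hμp]
      calc |c (n + 1) - c n| = |(c (n + 1) - c n + 15 / 8 * (d n / μ n)) -
          15 / 8 * (d n / μ n)| := by rw [← f2]
      _ ≤ |c (n + 1) - c n + 15 / 8 * (d n / μ n)| + |15 / 8 * (d n / μ n)| := abs_sub _ _
      _ ≤ _ := by rw [f3]; linarith
    obtain ⟨x, hx⟩ : ∃ x, x = ρ 0 / 2 ^ n := ⟨_, rfl⟩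
    have hx0 : 0 ≤ x := by rw [hx]; positivity
    rw [← hx] at e1 e3
    have f2 : D * (|c n| + ρ n) / (μ n * q) ≤ (3 * D ^ 2 * cb + D ^ 2 * x) * (1 / (μ n * q)) := by
      rw [mul_one_div]
      gcongr
      nlinarith
    have f3 : 15 / 8 * (|d n| / μ n) ≤ 15 / 8 * ((|d 0| / 8 ^ n + 24 * D ^ 2 * ((cb + x) / q)) /
        μ n) := by gcongr
    have f4 : 15 / 8 * ((|d 0| / 8 ^ n + 24 * D ^ 2 * ((cb + x) / q)) / μ n) =
        15 / 8 * (|d 0| / 8 ^ n * (1 / μ n)) + 45 * D ^ 2 * (cb + x) * (1 / (μ n * q)) := by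
      field_simp
      ring
    have hd0 := abs_nonneg (d 0)
    have f5 : 15 / 8 * (|d 0| / 8 ^ n * (1 / μ n)) ≤ 2 * (|d 0| / μ 0) * ((1 + n) / 8 ^ n) := by
      have f6 : 15 / 8 * (|d 0| / 8 ^ n * (1 / μ n)) ≤ 2 * (|d 0| / 8 ^ n * ((1 + n) / μ 0)) := by
        gcongr
        norm_num
      have f7 : 2 * (|d 0| / 8 ^ n * ((1 + n) / μ 0)) = 2 * (|d 0| / μ 0) * ((1 + n) / 8 ^ n) := by
        field_simp
      rw [← f7]
      exact f6
    have f8 : 51 * D ^ 2 * x * (1 / (μ n * q)) ≤ 51 * D ^ 2 * (ρ 0 / μ 0) * ((1 + n) / 2 ^ n) := by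
      have f9 : 1 / (μ n * q) ≤ (1 + n) / μ 0 := by
        refine le_trans ?_ e9
        gcongr
        nlinarith
      calc 51 * D ^ 2 * x * (1 / (μ n * q)) ≤ 51 * D ^ 2 * x * ((1 + n) / μ 0) := by gcongr
      _ = _ := by
        rw [hx]
        field_simp
    have f10 : 0 ≤ D ^ 2 * cb * (1 / (μ n * q)) := by positivity
    have f11 : 0 ≤ D ^ 2 * x * (1 / (μ n * q)) := by positivity
    have f12 : (3 * D ^ 2 * cb + D ^ 2 * x) * (1 / (μ n * q)) +
        45 * D ^ 2 * (cb + x) * (1 / (μ n * q)) ≤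
        51 * D ^ 2 * cb * (1 / (μ n * q)) + 51 * D ^ 2 * x * (1 / (μ n * q)) := by nlinarith
    linarith
  -- the sum of `1 / (μ √μ)`
  have hS1 : ∀ m < N, ∑ n ∈ range m, 1 / (μ n * √(μ n)) ≤ 2 / √(μ m) := by
    intro m
    induction m with
    | zero =>
      intro _
      rw [range_zero, sum_empty]
      positivity
    | succ m ih =>
      intro hm
      rw [sum_range_succ]
      have e1 := ih (by omega)
      have hqm := hq m (by omega)
      have hqm1 := hq (m + 1) hm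
      have hμm := hμ m (by omega)
      have hμm1 := hμ (m + 1) hm
      have e2 := (h2 m (by omega)).2
      obtain ⟨q, hqq⟩ : ∃ q, q = √(μ m) := ⟨_, rfl⟩
      obtain ⟨q', hqq'⟩ : ∃ q', q' = √(μ (m + 1)) := ⟨_, rfl⟩
      rw [← hqq] at e1 hqm hμm ⊢
      rw [← hqq'] at hqm1 hμm1 ⊢
      rw [hμm, hμm1] at e2
      rw [hμm]
      have hq0 : 0 < q := by linarith
      have hq0' : 0 < q' := by linarith
      have e3 : q' ≤ q := by
        by_contra hcon
        push Not at hcon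
        nlinarith
      have e4 : 2 / q + 1 / (q ^ 2 * q) ≤ 2 / q' := by
        rw [div_add_div _ _ hq0.ne' (by positivity), div_le_div_iff₀ (by positivity) hq0']
        have e5 : 1 ≤ (q - q') * (q + q') := by nlinarith
        have e6 : 1 ≤ (q - q') * (2 * q) := by
          refine e5.trans ?_
          have : 0 ≤ q - q' := by linarith
          gcongr
          linarith
        have e7 : q' ≤ 2 * q ^ 2 * (q - q') := by
          calc q' ≤ q * 1 := by linarith
          _ ≤ q * ((q - q') * (2 * q)) := by gcongr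
          _ = _ := by ring
        nlinarith [mul_le_mul_of_nonneg_left e7 hq0.le]
      linarith
  have hS : ∀ m ≤ N, ∑ n ∈ range m, 1 / (μ n * √(μ n)) ≤ 3 / r := by
    intro m hm
    have hr0 : 0 < r := by linarith
    rcases Nat.eq_zero_or_pos m with h0 | h0
    · rw [h0, range_zero, sum_empty]
      positivity
    · obtain ⟨m', rfl⟩ : ∃ m', m = m' + 1 := ⟨m - 1, by omega⟩
      rw [sum_range_succ]
      have e1 := hS1 m' (by omega)
      have hqm := hq m' (by omega)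
      have hμm := hμ m' (by omega)
      have e2 : 1 / (μ m' * √(μ m')) ≤ 1 / √(μ m') := by
        have : 0 < √(μ m') := by linarith
        gcongr
        nlinarith
      have e3 : 3 / √(μ m') ≤ 3 / r := by gcongr
      have e4 : 2 / √(μ m') + 1 / √(μ m') = 3 / √(μ m') := by ring
      linarith
  -- the displacement of `c`
  have hd0 := abs_nonneg (d 0)
  have hdis : ∀ m ≤ N, |c m - c 0| ≤ 4 * (|d 0| / μ 0) + 204 * D ^ 2 * (ρ 0 / μ 0) + cb / 8 := by
    intro m hm
    have e1 : |c m - c 0| ≤ ∑ n ∈ range m, (2 * (|d 0| / μ 0) * ((1 + n) / 8 ^ n) +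
        51 * D ^ 2 * cb * (1 / (μ n * √(μ n))) +
        51 * D ^ 2 * (ρ 0 / μ 0) * ((1 + n) / 2 ^ n)) := by
      rw [← sum_range_sub c m]
      refine (abs_sum_le_sum_abs _ _).trans (sum_le_sum fun n hn => ?_)
      rw [mem_range] at hn
      exact hinc n (by omega)
    rw [sum_add_distrib, sum_add_distrib, ← mul_sum, ← mul_sum, ← mul_sum] at e1
    have e2 : ∑ n ∈ range m, (1 + (n:ℝ)) / 8 ^ n ≤ 2 := by
      refine (sum8 m).trans ?_
      have : (0:ℝ) ≤ 2 * (m + 1) / 8 ^ m := by positivity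
      linarith
    have e3 : ∑ n ∈ range m, (1 + (n:ℝ)) / 2 ^ n ≤ 4 := by
      rw [sum2 m]
      have : (0:ℝ) ≤ 2 * (m + 2) / 2 ^ m := by positivity
      linarith
    have e4 := hS m hm
    have e5 : 2 * (|d 0| / μ 0) * ∑ n ∈ range m, (1 + (n:ℝ)) / 8 ^ n ≤ 2 * (|d 0| / μ 0) * 2 := by
      gcongr
    have e6 : 51 * D ^ 2 * (ρ 0 / μ 0) * ∑ n ∈ range m, (1 + (n:ℝ)) / 2 ^ n ≤
        51 * D ^ 2 * (ρ 0 / μ 0) * 4 := by gcongr
    have e7 : 51 * D ^ 2 * cb * ∑ n ∈ range m, 1 / (μ n * √(μ n)) ≤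
        51 * D ^ 2 * cb * (3 / r) := by gcongr
    have e8 : 51 * D ^ 2 * cb * (3 / r) = cb / 8 := by
      rw [hr]
      field_simp
      ring
    linarith
  have hcbb : 7 / 8 * cb ≤ |c 0| + 4 * (|d 0| / μ 0) + 204 * D ^ 2 * (ρ 0 / μ 0) := by
    have e1 := hdis js (by
      have := mem_range.1 hjs
      omega)
    have e2 : |c js| ≤ |c 0| + |c js - c 0| := by
      calc |c js| = |c 0 + (c js - c 0)| := by rw [add_sub_cancel]
      _ ≤ _ := abs_add_le _ _
    rw [← hcb] at e2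
    linarith
  have hd0b : |d 0| ≤ 4 * (|c 0| + ρ 0) := by
    have e1 : |d 0| ≤ |v 0| + |s 0 * c 0| := by
      rw [hd]
      exact abs_sub _ _
    have e2 : |s 0 * c 0| ≤ |c 0| := by
      have hs0 := h4 0 (by omega)
      rw [abs_mul, abs_of_nonneg hs0.2.1]
      calc s 0 * |c 0| ≤ 1 * |c 0| := by
            gcongr
            exact hs0.2.2
      _ = |c 0| := one_mul _
    have e3 := abs_nonneg (c 0)
    linarith
  have hc00 := abs_nonneg (c 0)
  obtain ⟨w, hw⟩ : ∃ w, w = (|c 0| + ρ 0) / μ 0 := ⟨_, rfl⟩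
  have hw0 : 0 ≤ w := by rw [hw]; positivity
  have e1 : |d 0| / μ 0 ≤ 4 * w := by
    rw [hw, ← mul_div_assoc]
    gcongr
  have e2 : ρ 0 / μ 0 ≤ w := by
    rw [hw]
    gcongr
    linarith
  have e3 : 204 * D ^ 2 * (ρ 0 / μ 0) ≤ 204 * D ^ 2 * w := by gcongr
  have hcb2 : cb ≤ 2 * |c 0| + 2 * (16 + 204 * D ^ 2) * w := by
    have e4 : 0 ≤ D ^ 2 * w := by positivity
    nlinarith
  rw [← hw]
  intro n hn
  refine ⟨?_, ?_, ?_⟩
  · have e4 := hcle n hn
    have e5 : 2 * (16 + 204 * D ^ 2) * w ≤ 4 * D * (17 + 204 * D ^ 2) * w := by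
      have e6 : 2 * (16 + 204 * D ^ 2) ≤ 4 * D * (17 + 204 * D ^ 2) := by nlinarith
      exact mul_le_mul_of_nonneg_right e6 hw0
    linarith
  · have e4 := hρ n hn
    have e5 : 2 * D * cb ≤ 4 * D * (17 + 204 * D ^ 2) * (|c 0| + w) := by
      calc 2 * D * cb ≤ 2 * D * (2 * |c 0| + 2 * (16 + 204 * D ^ 2) * w) := by gcongr
      _ = 4 * D * (|c 0| + (16 + 204 * D ^ 2) * w) := by ring
      _ ≤ 4 * D * ((17 + 204 * D ^ 2) * (|c 0| + w)) := by
        gcongr
        have e6 : 0 ≤ D ^ 2 * |c 0| := by positivity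
        nlinarith
      _ = _ := by ring
    linarith
  · intro hρz hvz
    have e4 := hdis n hn
    have e5 : d 0 = 0 := by rw [hd, hvz, sub_self]
    rw [e5, abs_zero, zero_div, hρz, zero_div] at e4 hcbb
    linarith

end Pool.Agent.Q275.MK
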